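import Pool.Agent.PFD.StmtsD3

/-!
Squad PFD, row GBJ: a graded linear map which is the identity modulo the prime element is
bijective.
-/

set_option autoImplicit false

namespace Pool.Agent.PFD.D3.H1

open MvPolynomial Pool.Agent.PFD

variable {R I : Type} [CommRing R] [Fintype I]

/-- the polynomials of degree at most `d` -/
noncomputable def Md (R I : Type) [CommRing R] (d : ℕ) : Submodule R (MvPolynomial I R) :=
  Submodule.span R ((fun γ : I →₀ ℕ => (monomial γ 1 : MvPolynomial I R)) '' {γ | γ.degree ≤ d})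

theorem fin_Md (d : ℕ) : Module.Finite R (Md R I d) := by
  refine Module.Finite.iff_fg.2 (Submodule.fg_span ?_)
  exact (Finsupp.finite_of_degree_le d).image _

theorem mem_Md {d : ℕ} {x : MvPolynomial I R} (h : ∀ γ ∈ x.support, γ.degree ≤ d) :
    x ∈ Md R I d := by
  rw [x.as_sum]
  refine Submodule.sum_mem _ fun γ hγ => ?_
  have h1 : (monomial γ (coeff γ x) : MvPolynomial I R) = coeff γ x • monomial γ 1 := by
    rw [smul_monomial, smul_eq_mul, mul_one]
  rw [h1]
  exact Submodule.smul_mem _ _ (Submodule.subset_span ⟨γ, h γ hγ, rfl⟩)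

theorem mem_Md_hom {d n : ℕ} (hn : n ≤ d) {x : MvPolynomial I R} (h : x.IsHomogeneous n) :
    x ∈ Md R I d := by
  refine mem_Md fun γ hγ => ?_
  have h1 : Finsupp.weight 1 γ = n := h (mem_support_iff.1 hγ)
  have h2 := DFunLike.congr_fun (Finsupp.degree_eq_weight_one (σ := I) (R := ℕ)) γ
  have h3 : Finsupp.degree γ = n := h2.trans h1
  exact h3.le.trans hn

theorem gbj (hung : D2.UngStmt) : GbjStmt := by
  intro R F I _ _ _ c T h1 h2
  have hT : ∀ d, ∀ x ∈ Md R I d, T x ∈ Md R I d := by
    intro d x hx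
    unfold Md at hx
    induction hx using Submodule.span_induction with
    | mem y hy =>
      obtain ⟨γ, hγ, rfl⟩ := hy
      exact mem_Md_hom hγ (h1 γ)
    | zero => rw [map_zero]; exact Submodule.zero_mem _
    | add y z _ _ hy hz => rw [map_add]; exact Submodule.add_mem _ hy hz
    | smul r y _ hy => rw [map_smul]; exact Submodule.smul_mem _ _ hy
  have hπ : ∀ d, ∀ x ∈ Md R I d, ∃ y ∈ Md R I d, T x - x = c.π • y := by
    intro d x hx
    unfold Md at hx
    induction hx using Submodule.span_induction with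
    | mem y hy =>
      obtain ⟨γ, hγ, rfl⟩ := hy
      obtain ⟨p, hp⟩ := h2 γ
      have h3 : (monomial γ (1 : R)).IsHomogeneous γ.degree := isHomogeneous_monomial _ rfl
      have h4 := (h1 γ).sub h3
      refine ⟨homogeneousComponent γ.degree p,
        mem_Md_hom hγ (homogeneousComponent_isHomogeneous _ _), ?_⟩
      have h5 := homogeneousComponent_of_mem ((mem_homogeneousSubmodule _ _).2 h4)
        (m := γ.degree)
      rw [if_pos rfl] at h5
      show T (monomial γ 1) - monomial γ 1 = _
      rw [← h5, hp, map_smul]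
    | zero => exact ⟨0, Submodule.zero_mem _, by rw [map_zero, sub_zero, smul_zero]⟩
    | add y z _ _ hy hz =>
      obtain ⟨y', hy', ey⟩ := hy
      obtain ⟨z', hz', ez⟩ := hz
      refine ⟨y' + z', Submodule.add_mem _ hy' hz', ?_⟩
      rw [smul_add, ← ey, ← ez, map_add]
      ring
    | smul r y _ hy =>
      obtain ⟨y', hy', ey⟩ := hy
      refine ⟨r • y', Submodule.smul_mem _ _ hy', ?_⟩
      rw [smul_comm, ← ey, map_smul, smul_sub]
  have hb : ∀ d, Function.Bijective (T.restrict (hT d)) := by
    intro d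
    have := fin_Md (R := R) (I := I) d
    refine hung R F (Md R I d) c _ fun x => ?_
    obtain ⟨y, hy, e⟩ := hπ d x.1 x.2
    exact ⟨⟨y, hy⟩, Subtype.ext e⟩
  have hdeg : ∀ x : MvPolynomial I R, x ∈ Md R I x.totalDegree := by
    intro x
    refine mem_Md fun γ hγ => ?_
    exact le_totalDegree hγ
  constructor
  · intro x y hxy
    have h3 : T (x - y) = 0 := by rw [map_sub, hxy, sub_self]
    have h4 : (T.restrict (hT (x - y).totalDegree)) ⟨x - y, hdeg _⟩ = 0 := Subtype.ext h3
    have h5 := (hb _).1 (h4.trans (map_zero _).symm)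
    exact sub_eq_zero.1 (congrArg Subtype.val h5)
  · intro y
    obtain ⟨x, hx⟩ := (hb y.totalDegree).2 ⟨y, hdeg y⟩
    exact ⟨x.1, congrArg Subtype.val hx⟩

end Pool.Agent.PFD.D3.H1
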